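import Pool.Agent.H87.LUY.Stmts
import Mathlib.LinearAlgebra.Matrix.PosDef
import Mathlib.LinearAlgebra.Matrix.SchurComplement

/-! LUY, module AXI -/

set_option autoImplicit false

open scoped BigOperators Topology Matrix
open Filter

noncomputable section

namespace Pool.LU.FK

theorem axi_psd {m n : Type} [Fintype m] [Fintype n] (A : Matrix m n ℝ) :
    (A * A.transpose).PosSemidef := by
  have h := Matrix.posSemidef_self_mul_conjTranspose A
  rwa [Matrix.conjTranspose_eq_transpose_of_trivial] at h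

theorem axi_diag {m : Type} [DecidableEq m] [Fintype m] {d : m → ℝ} (h : ∀ i, 0 ≤ d i) :
    (Matrix.diagonal d).PosSemidef := Matrix.PosSemidef.diagonal h

theorem axi_conj {m n : Type} [Fintype m] [Fintype n] {A : Matrix n n ℝ} (hA : A.PosSemidef)
    (B : Matrix m n ℝ) : (B * A * B.transpose).PosSemidef := by
  have h := hA.mul_mul_conjTranspose_same B
  rwa [Matrix.conjTranspose_eq_transpose_of_trivial] at h

theorem axi_schur (hdmo : DMOStmt) {I1 I2 J : Type} [Fintype I1] [DecidableEq I1] [Fintype I2]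
    [DecidableEq I2] [Fintype J] (P : Matrix I1 J ℝ) (G : Matrix I2 J ℝ) (k : I1 → ℝ)
    (hk : ∀ i, 0 < k i) (hP : P * P.transpose = Matrix.diagonal k) (η : ℝ) (hη : 0 < η) :
    (∏ i, k i) * (G * G.transpose - (G * P.transpose) * Matrix.diagonal (fun i => (k i)⁻¹) *
      (G * P.transpose).transpose + η • (1 : Matrix I2 I2 ℝ)).det ≤
    gd η (Matrix.fromRows P G) := by
  classical
  have hk' : ∀ i, 0 < k i + η := fun i => add_pos (hk i) hη
  set E := G * P.transpose with hE
  have hPG : P * G.transpose = E.transpose := by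
    rw [hE, Matrix.transpose_mul, Matrix.transpose_transpose]
  have e1 : Matrix.fromRows P G * (Matrix.fromRows P G).transpose +
      η • (1 : Matrix (I1 ⊕ I2) (I1 ⊕ I2) ℝ) =
      Matrix.fromBlocks (Matrix.diagonal fun i => k i + η) E.transpose E
        (G * G.transpose + η • (1 : Matrix I2 I2 ℝ)) := by
    rw [Matrix.transpose_fromRows, Matrix.fromRows_mul_fromCols, hP, hPG, ← hE,
      ← Matrix.fromBlocks_one, Matrix.fromBlocks_smul, Matrix.fromBlocks_add]
    congr 1
    · ext i j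
      by_cases h : i = j
      · subst h; simp
      · simp [h]
    · simp
    · simp
  have hinv : (Matrix.diagonal fun i => (k i + η)⁻¹) * (Matrix.diagonal fun i => k i + η) = 1 := by
    rw [Matrix.diagonal_mul_diagonal]
    have : (fun i => (k i + η)⁻¹ * (k i + η)) = fun _ => (1 : ℝ) := by
      funext i; exact inv_mul_cancel₀ (hk' i).ne'
    rw [this]; exact Matrix.diagonal_one
  let : Invertible (Matrix.diagonal fun i => k i + η) :=
    invertibleOfLeftInverse _ _ hinv
  have e2 : ⅟(Matrix.diagonal fun i => k i + η) = Matrix.diagonal fun i => (k i + η)⁻¹ := rfl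
  rw [gd, e1, Matrix.det_fromBlocks₁₁, e2, Matrix.det_diagonal]
  set S := G * G.transpose - E * Matrix.diagonal (fun i => (k i)⁻¹) * E.transpose +
      η • (1 : Matrix I2 I2 ℝ) with hS
  set S' := G * G.transpose + η • (1 : Matrix I2 I2 ℝ) -
      E * (Matrix.diagonal fun i => (k i + η)⁻¹) * E.transpose with hS'
  have hSpsd : S.PosSemidef := by
    apply Matrix.PosSemidef.add
    · -- projection
      set D := Matrix.diagonal (fun i => (k i)⁻¹) with hD
      have hDt : D.transpose = D := Matrix.diagonal_transpose _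
      set Pi0 := (1 : Matrix J J ℝ) - P.transpose * D * P with hPi
      have h1 : D * (P * P.transpose) * D = D := by
        rw [hP, hD, Matrix.diagonal_mul_diagonal, Matrix.diagonal_mul_diagonal]
        congr 1
        funext i
        rw [inv_mul_cancel₀ (hk i).ne', one_mul]
      have h2 : (P.transpose * D * P) * (P.transpose * D * P) = P.transpose * D * P := by
        calc (P.transpose * D * P) * (P.transpose * D * P)
            = P.transpose * (D * (P * P.transpose) * D) * P := by simp only [Matrix.mul_assoc]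
          _ = _ := by rw [h1]
      have h3 : Pi0 * Pi0.transpose = Pi0 := by
        rw [hPi, Matrix.transpose_sub, Matrix.transpose_one, Matrix.transpose_mul,
          Matrix.transpose_mul, Matrix.transpose_transpose, hDt, ← Matrix.mul_assoc,
          Matrix.sub_mul, Matrix.mul_sub, Matrix.mul_sub, Matrix.one_mul, Matrix.mul_one,
          Matrix.one_mul, h2]
        abel
      have h4 : G * G.transpose - E * D * E.transpose = G * Pi0 * G.transpose := by
        rw [hPi, Matrix.mul_sub, Matrix.mul_one, Matrix.sub_mul, hE, Matrix.transpose_mul,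
          Matrix.transpose_transpose]
        simp only [Matrix.mul_assoc]
      rw [h4, ← h3]
      have h5 := axi_psd (G * Pi0)
      rw [Matrix.transpose_mul] at h5
      simpa only [Matrix.mul_assoc] using h5
    · exact Matrix.PosSemidef.one.smul hη.le
  have hle : S.det ≤ S'.det := by
    apply hdmo _ _ _ hSpsd
    have h1 : S' - S = E * (Matrix.diagonal fun i => (k i)⁻¹ - (k i + η)⁻¹) * E.transpose := by
      rw [hS, hS', ← Matrix.diagonal_sub, Matrix.mul_sub, Matrix.sub_mul]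
      abel
    rw [h1]
    apply axi_conj
    apply axi_diag
    intro i
    rw [sub_nonneg]
    exact inv_anti₀ (hk i) (by linarith)
  have hprod : ∏ i, k i ≤ ∏ i, (k i + η) :=
    Finset.prod_le_prod (fun i _ => (hk i).le) (fun i _ => by linarith)
  exact mul_le_mul hprod hle hSpsd.det_nonneg (Finset.prod_nonneg fun i _ => (hk' i).le)

/-! ### the sign vectors -/

theorem axi_c1 : ∀ a u : SV, nz a = 0 → nz u = 0 → ¬ sadj a u := by decide +kernel

theorem axi_c2 : ∀ u a1 a2 : SV, nz a1 = 0 → nz a2 = 0 → nz u = 1 → sadj a1 u → sadj a2 u →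
    a1 ≠ a2 → par a1 ≠ par a2 := by decide +kernel

theorem axi_c3 : ∀ (ε : Bool) (u : SV), nz u ≠ 0 →
    (Finset.univ.filter fun a : SV => nz a = 0 ∧ sadj a u ∧ (par a = ε)).card =
      if nz u = 1 then 1 else 2 := by decide +kernel

theorem axi_c4 : ∀ u : SV, nz u ≠ 0 → nz u ≠ 1 → nz u = 2 := by decide +kernel

theorem axi_c5 : (Finset.univ.filter fun u : SV => nz u = 2).card = 6 := by decide +kernel

theorem axi_c6 : (Finset.univ.filter fun u : SV => nz u = 0 ∧ u ≠ v1 ∧ u ≠ v2).card = 6 := by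
  decide +kernel

theorem axi_c7 : ∀ u : SV, nz u ≠ 0 → u ≠ v1 ∧ u ≠ v2 := by decide +kernel

theorem axi_c8 : ∀ a u : SV, nz a = 0 → sadj a u → a ≠ u := by decide +kernel

/-! ### the entries `df` -/

variable {Y : YSet}

theorem axi_rho_ne (v : SV) (y : Y.X) : Y.ρ v y ≠ y := by
  intro h
  have h1 := Y.χ_self v y
  rw [h] at h1
  rcases Int.units_eq_one_or (Y.χ v y) with h2 | h2 <;> rw [h2] at h1 <;> revert h1 <;> decide

theorem axi_df_self (v : SV) (y : Y.X) : df Y v y y = 1 := by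
  unfold df
  rw [if_pos rfl, if_neg (axi_rho_ne v y).symm, sub_zero]

theorem axi_df_rho (v : SV) (y y' : Y.X) : df Y v (Y.ρ v y) y' = - df Y v y y' := by
  unfold df
  rw [Y.ρρ]
  ring

theorem axi_df_ne {v : SV} {y y' : Y.X} (h : df Y v y y' ≠ 0) : y' = y ∨ y' = Y.ρ v y := by
  by_contra hc
  push Not at hc
  apply h
  unfold df
  rw [if_neg hc.1, if_neg hc.2, sub_zero]

theorem axi_df_comm (v : SV) (y y' : Y.X) : df Y v y y' = df Y v y' y := by
  unfold df
  have e1 : (y' = y) = (y = y') := propext eq_comm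
  have e2 : (y' = Y.ρ v y) = (y = Y.ρ v y') := by
    apply propext
    constructor
    · intro h; rw [h, Y.ρρ]
    · intro h; rw [h, Y.ρρ]
  simp only [e1, e2]

theorem axi_df_sum (b : SV) (y1 y2 : Y.X) :
    (∑ z, if Y.χ b z = 1 then df Y b z y1 * df Y b z y2 else 0) = df Y b y1 y2 := by
  have key : ∀ y : Y.X, Y.χ b y = 1 → ∀ y2, 
      (∑ z, if Y.χ b z = 1 then df Y b z y * df Y b z y2 else 0) = df Y b y y2 := by
    intro y hy y2
    rw [Finset.sum_eq_single y]
    · rw [if_pos hy, axi_df_self, one_mul]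
    · intro z _ hz
      split_ifs with h
      · by_cases h0 : df Y b z y = 0
        · rw [h0, zero_mul]
        · rcases axi_df_ne h0 with h1 | h1
          · exact absurd h1.symm hz
          · exfalso
            rw [h1, Y.χ_self, h] at hy
            revert hy; decide
      · rfl
    · intro h; exact absurd (Finset.mem_univ _) h
  rcases Int.units_eq_one_or (Y.χ b y1) with h | h
  · exact key y1 h y2
  · have h1 : Y.χ b (Y.ρ b y1) = 1 := by rw [Y.χ_self, h]; decide
    have h2 := key _ h1 y2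
    rw [axi_df_rho] at h2
    rw [← neg_inj, ← h2, ← Finset.sum_neg_distrib]
    refine Finset.sum_congr rfl fun z _ => ?_
    split_ifs
    · rw [axi_df_comm b z (Y.ρ b y1), axi_df_rho, axi_df_comm b y1 z]; ring
    · simp

theorem axi_chi {a b : SV} (hab : sadj a b) {z y : Y.X} (h : df Y b z y ≠ 0) :
    Y.χ a z = Y.χ a y := by
  rcases axi_df_ne h with h1 | h1
  · rw [h1]
  · rw [h1, Y.χ_adj a b hab]

/-! ### the matrices -/

variable (Y)

/-- 1-cells which are not corners -/
def AN : Type := {p : SV × Y.X // nz p.1 ≠ 0 ∧ Y.χ p.1 p.2 = 1}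

instance : Fintype (AN Y) := by classical exact (Subtype.fintype _)
instance : DecidableEq (AN Y) := Classical.decEq _

/-- the rows -/
def axiE : AN Y ⊕ CC Y ≃ C1a Y where
  toFun := Sum.elim (fun p => ⟨p.1, axi_c7 _ p.2.1, p.2.2⟩) (fun p => ⟨p.1, p.2.1.2, p.2.2⟩)
  invFun p := if h : nz p.1.1 = 0 then Sum.inr ⟨p.1, ⟨h, p.2.1⟩, p.2.2⟩
    else Sum.inl ⟨p.1, h, p.2.2⟩
  left_inv p := by
    rcases p with p | p
    · exact dif_neg p.2.1
    · exact dif_pos p.2.1.1
  right_inv p := by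
    by_cases h : nz p.1.1 = 0
    · simp only [dif_pos h]; rfl
    · simp only [dif_neg h]; rfl

/-- the block of the edges and faces -/
def axP : Matrix (AN Y) (C2a Y) ℝ :=
  Matrix.of fun p c => if p.1.1 = c.1.1.2 ∧ p.1.2 = c.1.2 then 1 else 0

/-- the block of the corners -/
def axG : Matrix (CC Y) (C2a Y) ℝ :=
  Matrix.of fun p c => if p.1.1 = c.1.1.1 then - df Y c.1.1.2 c.1.2 p.1.2 else 0

variable {Y}

theorem axi_rows {l : ℕ} (L : Lvl Y l) (hl : 1 ≤ l) :
    (A0 L).submatrix (axiE Y) id = Matrix.fromRows (axP Y) (axG Y) := by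
  ext p c
  have hab := c.2.1.2
  have ha := c.2.1.1
  have hne := axi_c8 _ _ ha hab
  have h10 : (1 : ZMod (2 * l)) ≠ 0 := by
    have : Fact (1 < 2 * l) := ⟨by omega⟩
    exact one_ne_zero
  rcases p with p | p
  · -- not a corner
    have hpa : p.1.1 ≠ c.1.1.1 := by
      intro h; apply p.2.1; rw [h]; exact ha
    show (if L.ν p.1.2 = L.ν c.1.2 then AT Y ⟨p.1, axi_c7 _ p.2.1, p.2.2⟩ c else 0) = axP Y p c
    show (if L.ν p.1.2 = L.ν c.1.2 then d2 Y c.1.1.1 c.1.1.2 c.1.2 p.1.1 p.1.2 else 0) =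
      if p.1.1 = c.1.1.2 ∧ p.1.2 = c.1.2 then 1 else 0
    unfold d2
    rw [if_neg hpa, sub_zero]
    by_cases h1 : p.1.1 = c.1.1.2
    · rw [if_pos h1]
      by_cases h2 : p.1.2 = c.1.2
      · rw [if_pos (c := p.1.1 = c.1.1.2 ∧ p.1.2 = c.1.2) ⟨h1, h2⟩, h2, if_pos rfl, axi_df_self]
      · rw [if_neg (c := p.1.1 = c.1.1.2 ∧ p.1.2 = c.1.2) (fun h => h2 h.2)]
        unfold df
        rw [if_neg (c := p.1.2 = c.1.2) h2]
        split_ifs with h3 h4
        · exfalso
          rw [h4, L.dn _ _ ha c.2.2.1] at h3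
          apply h10
          have : (L.ν c.1.2 - 1) - L.ν c.1.2 = 0 := sub_eq_zero.2 h3
          have h5 : (-1 : ZMod (2 * l)) = 0 := by rw [← this]; ring
          exact neg_eq_zero.1 h5
        · simp
        · rfl
    · rw [if_neg (c := p.1.1 = c.1.1.2) h1,
        if_neg (c := p.1.1 = c.1.1.2 ∧ p.1.2 = c.1.2) (fun h => h1 h.1)]
      simp
  · -- a corner
    have hpb : p.1.1 ≠ c.1.1.2 := by
      intro h
      have h1 := p.2.1.1
      rw [h] at h1
      exact axi_c1 _ _ ha h1 hab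
    show (if L.ν p.1.2 = L.ν c.1.2 then d2 Y c.1.1.1 c.1.1.2 c.1.2 p.1.1 p.1.2 else 0) =
      if p.1.1 = c.1.1.1 then - df Y c.1.1.2 c.1.2 p.1.2 else 0
    unfold d2
    rw [if_neg hpb, zero_sub]
    by_cases h1 : p.1.1 = c.1.1.1
    · rw [if_pos h1, if_pos h1]
      split_ifs with h2
      · rfl
      · symm
        rw [neg_eq_zero]
        by_contra h3
        apply h2
        rcases axi_df_ne h3 with h4 | h4
        · rw [h4]
        · rw [h4, L.st]
          intro h5
          exact axi_c1 _ _ ha h5 hab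
    · rw [if_neg (c := p.1.1 = c.1.1.1) h1, if_neg (c := p.1.1 = c.1.1.1) h1]
      simp

theorem axi_gd {l : ℕ} (L : Lvl Y l) (hl : 1 ≤ l) (η : ℝ) :
    gd η (A0 L) = gd η (Matrix.fromRows (axP Y) (axG Y)) := by
  rw [← axi_rows L hl]
  unfold gd
  rw [← Matrix.det_submatrix_equiv_self (axiE Y)]
  congr 1
  ext i j
  simp [Matrix.mul_apply, Matrix.one_apply]

theorem axi_sum2 (f : SV → SV → Y.X → ℝ) : (∑ c : C2a Y, f c.1.1.1 c.1.1.2 c.1.2) =
    ∑ a, ∑ b, ∑ z, if (nz a = 0 ∧ sadj a b) ∧ Y.χ a z = 1 ∧ Y.χ b z = 1 then f a b z else 0 := by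
  classical
  have h := Finset.sum_subtype (F := inferInstance) (Finset.univ.filter fun p : (SV × SV) × Y.X =>
    (nz p.1.1 = 0 ∧ sadj p.1.1 p.1.2) ∧ Y.χ p.1.1 p.2 = 1 ∧ Y.χ p.1.2 p.2 = 1)
    (p := fun p => (nz p.1.1 = 0 ∧ sadj p.1.1 p.1.2) ∧ Y.χ p.1.1 p.2 = 1 ∧ Y.χ p.1.2 p.2 = 1)
    (by intro x; simp) (fun p => f p.1.1 p.1.2 p.2)
  rw [Finset.sum_filter, Fintype.sum_prod_type, Fintype.sum_prod_type] at h
  rw [h]
  rfl

theorem axi_sum1 (f : SV → Y.X → ℝ) : (∑ c : AN Y, f c.1.1 c.1.2) =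
    ∑ u, ∑ z, if nz u ≠ 0 ∧ Y.χ u z = 1 then f u z else 0 := by
  classical
  have h := Finset.sum_subtype (F := inferInstance) (Finset.univ.filter fun p : SV × Y.X =>
    nz p.1 ≠ 0 ∧ Y.χ p.1 p.2 = 1)
    (p := fun p => nz p.1 ≠ 0 ∧ Y.χ p.1 p.2 = 1)
    (by intro x; simp) (fun p => f p.1 p.2)
  rw [Finset.sum_filter, Fintype.sum_prod_type] at h
  rw [h]
  rfl

/-- the number of corners -/
def axk (u : SV) : ℝ := if nz u = 1 then 1 else 2

theorem axi_PP {l : ℕ} (L : Lvl Y l) :
    axP Y * (axP Y).transpose = Matrix.diagonal fun p => axk p.1.1 := by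
  classical
  ext p q
  rw [Matrix.mul_apply, Matrix.diagonal_apply]
  simp only [axP, Matrix.transpose_apply, Matrix.of_apply]
  split_ifs with hpq
  · subst hpq
    have h1 : (∑ c : C2a Y, (if p.1.1 = c.1.1.2 ∧ p.1.2 = c.1.2 then (1 : ℝ) else 0) *
        (if p.1.1 = c.1.1.2 ∧ p.1.2 = c.1.2 then 1 else 0)) =
        ∑ a, ∑ b, ∑ z, if (nz a = 0 ∧ sadj a b) ∧ Y.χ a z = 1 ∧ Y.χ b z = 1 then
          (if p.1.1 = b ∧ p.1.2 = z then (1 : ℝ) else 0) else 0 := by
      rw [← axi_sum2 fun a b z => if p.1.1 = b ∧ p.1.2 = z then (1 : ℝ) else 0]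
      refine Finset.sum_congr rfl fun c _ => ?_
      split_ifs <;> norm_num
    rw [h1]
    have h2 : ∀ a : SV, (∑ b, ∑ z, if (nz a = 0 ∧ sadj a b) ∧ Y.χ a z = 1 ∧ Y.χ b z = 1 then
          (if p.1.1 = b ∧ p.1.2 = z then (1 : ℝ) else 0) else 0) =
          if nz a = 0 ∧ sadj a p.1.1 ∧ (par a = decide ((L.ν p.1.2).val % 2 = 1)) then 1
            else 0 := by
      intro a
      rw [Finset.sum_eq_single p.1.1, Finset.sum_eq_single p.1.2]
      · rw [if_pos (c := p.1.1 = p.1.1 ∧ p.1.2 = p.1.2) ⟨rfl, rfl⟩]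
        by_cases ha : nz a = 0
        · have h3 := L.odd a p.1.2 ha
          refine if_congr ?_ rfl rfl
          constructor
          · rintro ⟨⟨_, h4⟩, h5, _⟩
            refine ⟨ha, h4, ?_⟩
            have h6 := h3.1 h5
            by_cases h7 : (L.ν p.1.2).val % 2 = 1
            · rw [h6.1 h7, decide_eq_true h7]
            · rw [decide_eq_false h7]
              by_contra h8
              exact h7 (h6.2 (by simpa using h8))
          · rintro ⟨_, h4, h5⟩
            refine ⟨⟨ha, h4⟩, h3.2 ?_, p.2.2⟩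
            rw [h5]
            simp
        · rw [if_neg (c := (nz a = 0 ∧ _) ∧ _) (fun h => ha h.1.1),
            if_neg (c := nz a = 0 ∧ sadj a p.1.1 ∧ _) (fun h => ha h.1)]
      · intro z _ hz
        rw [if_neg (c := p.1.1 = p.1.1 ∧ p.1.2 = z) (fun h => hz h.2.symm)]
        simp
      · intro h; exact absurd (Finset.mem_univ _) h
      · intro b _ hb
        apply Finset.sum_eq_zero
        intro z _
        rw [if_neg (c := p.1.1 = b ∧ p.1.2 = z) (fun h => hb h.1.symm)]
        simp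
      · intro h; exact absurd (Finset.mem_univ _) h
    rw [Finset.sum_congr rfl fun a _ => h2 a, Finset.sum_boole,
      axi_c3 (decide ((L.ν p.1.2).val % 2 = 1)) p.1.1 p.2.1, axk]
    split_ifs <;> norm_num
  · apply Finset.sum_eq_zero
    intro c _
    split_ifs with h1 h2
    · exfalso
      apply hpq
      apply Subtype.ext
      exact Prod.ext (h1.1.trans h2.1.symm) (h1.2.trans h2.2.symm)
    · simp
    · simp
    · simp

theorem axi_GP (p : CC Y) (q : AN Y) : (axG Y * (axP Y).transpose) p q =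
    if sadj p.1.1 q.1.1 then - df Y q.1.1 q.1.2 p.1.2 else 0 := by
  classical
  rw [Matrix.mul_apply]
  simp only [axP, axG, Matrix.transpose_apply, Matrix.of_apply]
  have h1 := axi_sum2 (Y := Y) fun a b z => (if p.1.1 = a then - df Y b z p.1.2 else 0) *
    (if q.1.1 = b ∧ q.1.2 = z then (1 : ℝ) else 0)
  rw [h1]
  rw [Finset.sum_eq_single p.1.1, Finset.sum_eq_single q.1.1, Finset.sum_eq_single q.1.2]
  · rw [if_pos (c := q.1.1 = q.1.1 ∧ q.1.2 = q.1.2) ⟨rfl, rfl⟩, if_pos (c := p.1.1 = p.1.1) rfl,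
      mul_one]
    by_cases h2 : sadj p.1.1 q.1.1
    · rw [if_pos (c := sadj p.1.1 q.1.1) h2]
      by_cases h3 : df Y q.1.1 q.1.2 p.1.2 = 0
      · rw [h3]; simp
      · have h4 := axi_chi h2 h3
        rw [p.2.2] at h4
        rw [if_pos ⟨⟨p.2.1.1, h2⟩, h4, q.2.2⟩]
    · rw [if_neg (c := sadj p.1.1 q.1.1) h2, if_neg (c := (nz p.1.1 = 0 ∧ _) ∧ _)
        (fun h => h2 h.1.2)]
  · intro z _ hz
    rw [if_neg (c := q.1.1 = q.1.1 ∧ q.1.2 = z) (fun h => hz h.2.symm)]
    simp
  · intro h; exact absurd (Finset.mem_univ _) h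
  · intro b _ hb
    apply Finset.sum_eq_zero
    intro z _
    rw [if_neg (c := q.1.1 = b ∧ q.1.2 = z) (fun h => hb h.1.symm)]
    simp
  · intro h; exact absurd (Finset.mem_univ _) h
  · intro a _ ha
    apply Finset.sum_eq_zero
    intro b _
    apply Finset.sum_eq_zero
    intro z _
    rw [if_neg (c := p.1.1 = a) (fun h => ha h.symm)]
    simp
  · intro h; exact absurd (Finset.mem_univ _) h

theorem axi_GG (p q : CC Y) : (axG Y * (axG Y).transpose) p q =
    if p.1.1 = q.1.1 then ∑ b, (if sadj p.1.1 b then df Y b p.1.2 q.1.2 else 0) else 0 := by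
  classical
  rw [Matrix.mul_apply]
  simp only [axG, Matrix.transpose_apply, Matrix.of_apply]
  have h1 := axi_sum2 (Y := Y) fun a b z => (if p.1.1 = a then - df Y b z p.1.2 else 0) *
    (if q.1.1 = a then - df Y b z q.1.2 else 0)
  rw [h1]
  split_ifs with hpq
  · rw [Finset.sum_eq_single p.1.1]
    · refine Finset.sum_congr rfl fun b _ => ?_
      by_cases h2 : sadj p.1.1 b
      · rw [if_pos (c := sadj p.1.1 b) h2]
        rw [← axi_df_sum b p.1.2 q.1.2]
        refine Finset.sum_congr rfl fun z _ => ?_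
        rw [if_pos (c := p.1.1 = p.1.1) rfl, if_pos (c := q.1.1 = p.1.1) hpq.symm]
        by_cases h3 : Y.χ b z = 1
        · rw [if_pos h3]
          by_cases h4 : df Y b z p.1.2 = 0
          · simp [h4]
          · have h5 := axi_chi h2 h4
            rw [p.2.2] at h5
            rw [if_pos ⟨⟨p.2.1.1, h2⟩, h5, h3⟩, neg_mul_neg]
        · rw [if_neg h3, if_neg (fun h => h3 h.2.2)]
      · rw [if_neg (c := sadj p.1.1 b) h2]
        apply Finset.sum_eq_zero
        intro z _
        rw [if_neg (fun h => h2 h.1.2)]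
    · intro a _ ha
      apply Finset.sum_eq_zero
      intro b _
      apply Finset.sum_eq_zero
      intro z _
      rw [if_neg (c := p.1.1 = a) (fun h => ha h.symm)]
      simp
    · intro h; exact absurd (Finset.mem_univ _) h
  · apply Finset.sum_eq_zero
    intro a _
    apply Finset.sum_eq_zero
    intro b _
    apply Finset.sum_eq_zero
    intro z _
    by_cases h2 : p.1.1 = a
    · rw [if_neg (c := q.1.1 = a) (fun h => hpq (h2.trans h.symm))]
      simp
    · rw [if_neg (c := p.1.1 = a) h2]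
      simp

theorem axi_GDG (p q : CC Y) : ((axG Y * (axP Y).transpose) *
    Matrix.diagonal (fun r : AN Y => (axk r.1.1)⁻¹) * (axG Y * (axP Y).transpose).transpose) p q =
    ∑ u, if nz u ≠ 0 ∧ sadj p.1.1 u ∧ sadj q.1.1 u then (axk u)⁻¹ * df Y u p.1.2 q.1.2 else 0 := by
  classical
  rw [Matrix.mul_apply]
  have h0 : ∀ r : AN Y, ((axG Y * (axP Y).transpose) *
      Matrix.diagonal (fun r : AN Y => (axk r.1.1)⁻¹)) p r *
      (axG Y * (axP Y).transpose).transpose r q =
      (if sadj p.1.1 r.1.1 ∧ sadj q.1.1 r.1.1 then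
        (axk r.1.1)⁻¹ * (df Y r.1.1 r.1.2 p.1.2 * df Y r.1.1 r.1.2 q.1.2) else 0) := by
    intro r
    rw [Matrix.mul_diagonal, Matrix.transpose_apply, axi_GP, axi_GP]
    by_cases h1 : sadj p.1.1 r.1.1
    · by_cases h2 : sadj q.1.1 r.1.1
      · rw [if_pos h1, if_pos h2, if_pos ⟨h1, h2⟩]; ring
      · rw [if_neg h2, if_neg (c := sadj p.1.1 r.1.1 ∧ sadj q.1.1 r.1.1) (fun h => h2 h.2)]; simp
    · rw [if_neg h1, if_neg (c := sadj p.1.1 r.1.1 ∧ sadj q.1.1 r.1.1) (fun h => h1 h.1)]; simp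
  rw [Finset.sum_congr rfl fun r _ => h0 r]
  have h1 := axi_sum1 (Y := Y) fun u z => if sadj p.1.1 u ∧ sadj q.1.1 u then
        (axk u)⁻¹ * (df Y u z p.1.2 * df Y u z q.1.2) else 0
  rw [h1]
  refine Finset.sum_congr rfl fun u _ => ?_
  by_cases h2 : nz u ≠ 0 ∧ sadj p.1.1 u ∧ sadj q.1.1 u
  · rw [if_pos h2, ← axi_df_sum u p.1.2 q.1.2, Finset.mul_sum]
    refine Finset.sum_congr rfl fun z _ => ?_
    rw [if_pos h2.2]
    by_cases h3 : Y.χ u z = 1
    · rw [if_pos ⟨h2.1, h3⟩, if_pos h3]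
    · rw [if_neg (fun h => h3 h.2), if_neg h3, mul_zero]
  · rw [if_neg h2]
    apply Finset.sum_eq_zero
    intro z _
    by_cases h3 : nz u ≠ 0 ∧ Y.χ u z = 1
    · rw [if_pos h3, if_neg (fun h => h2 ⟨h3.1, h⟩)]
    · rw [if_neg h3]

theorem axi_par {l : ℕ} (L : Lvl Y l) {p q : CC Y} (h : par p.1.1 ≠ par q.1.1) {u : SV}
    (hu : nz u ≠ 0) : df Y u p.1.2 q.1.2 = 0 := by
  by_contra hc
  have h1 : L.ν q.1.2 = L.ν p.1.2 := by
    rcases axi_df_ne hc with h1 | h1
    · rw [h1]
    · rw [h1, L.st _ _ hu]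
  have h2 := (L.odd p.1.1 p.1.2 p.2.1.1).1 p.2.2
  have h3 := (L.odd q.1.1 q.1.2 q.2.1.1).1 q.2.2
  rw [h1] at h3
  apply h
  rw [Bool.eq_iff_iff]
  exact h2.symm.trans h3

theorem axi_Xi {l : ℕ} (L : Lvl Y l) : (2 : ℝ) • (axG Y * (axG Y).transpose -
    (axG Y * (axP Y).transpose) * Matrix.diagonal (fun r : AN Y => (axk r.1.1)⁻¹) *
      (axG Y * (axP Y).transpose).transpose) = Xi Y := by
  ext p q
  rw [Matrix.smul_apply, Matrix.sub_apply, axi_GG, axi_GDG]
  show _ = ∑ f : SV, if nz f = 2 ∧ sadj p.1.1 f ∧ sadj q.1.1 f ∧ par p.1.1 = par q.1.1 then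
    (if p.1.1 = q.1.1 then 1 else -1) * df Y f p.1.2 q.1.2 else 0
  have hG : (if p.1.1 = q.1.1 then ∑ b, (if sadj p.1.1 b then df Y b p.1.2 q.1.2 else 0) else 0) =
      ∑ b, if p.1.1 = q.1.1 ∧ sadj p.1.1 b then df Y b p.1.2 q.1.2 else 0 := by
    split_ifs with h
    · refine Finset.sum_congr rfl fun b _ => ?_
      simp [h]
    · symm
      apply Finset.sum_eq_zero
      intro b _
      rw [if_neg (fun h2 => h h2.1)]
  rw [hG, ← Finset.sum_sub_distrib, Finset.smul_sum]
  refine Finset.sum_congr rfl fun u _ => ?_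
  rw [smul_eq_mul]
  have hp0 := p.2.1.1
  have hq0 := q.2.1.1
  by_cases h1 : sadj p.1.1 u
  · by_cases h2 : sadj q.1.1 u
    · have hu0 : nz u ≠ 0 := fun h => axi_c1 _ _ hp0 h h1
      by_cases hu1 : nz u = 1
      · -- edge
        rw [if_neg (c := nz u = 2 ∧ _) (fun h => by rw [hu1] at h; exact absurd h.1 (by decide)),
          if_pos (c := nz u ≠ 0 ∧ _) ⟨hu0, h1, h2⟩]
        by_cases he : p.1.1 = q.1.1
        · rw [if_pos ⟨he, h1⟩, axk, if_pos hu1]
          ring
        · rw [if_neg (fun h => he h.1), axi_par L (axi_c2 u _ _ hp0 hq0 hu1 h1 h2 he) hu0]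
          ring
      · have hu2 := axi_c4 u hu0 hu1
        rw [if_pos (c := nz u ≠ 0 ∧ _) ⟨hu0, h1, h2⟩, axk, if_neg hu1]
        by_cases he : p.1.1 = q.1.1
        · rw [if_pos ⟨he, h1⟩, if_pos ⟨hu2, h1, h2, by rw [he]⟩, if_pos he]
          ring
        · rw [if_neg (fun h => he h.1), if_neg (c := p.1.1 = q.1.1) he]
          by_cases hpar : par p.1.1 = par q.1.1
          · rw [if_pos ⟨hu2, h1, h2, hpar⟩]; ring
          · rw [if_neg (fun h => hpar h.2.2.2), axi_par L hpar hu0]; ring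
    · rw [if_neg (c := nz u ≠ 0 ∧ _) (fun h => h2 h.2.2), if_neg (c := nz u = 2 ∧ _)
        (fun h => h2 h.2.2.1), if_neg]
      · ring
      · rintro ⟨h3, _⟩
        rw [h3] at h1
        exact h2 h1
  · rw [if_neg (fun h => h1 h.2), if_neg (c := nz u ≠ 0 ∧ _) (fun h => h1 h.2.1),
      if_neg (c := nz u = 2 ∧ _) (fun h => h1 h.2.1)]
    ring

theorem axi_half (v : SV) : 2 * (Finset.univ.filter fun y : Y.X => Y.χ v y = 1).card =
    Fintype.card Y.X := by
  classical
  have h1 : (Finset.univ.filter fun y : Y.X => Y.χ v y = 1).card =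
      (Finset.univ.filter fun y : Y.X => ¬ Y.χ v y = 1).card := by
    refine Finset.card_bij (fun y _ => Y.ρ v y) ?_ ?_ ?_
    · intro y hy
      simp only [Finset.mem_filter, Finset.mem_univ, true_and] at hy ⊢
      rw [Y.χ_self, hy]; decide
    · intro y _ y' _ h
      have := congrArg (Y.ρ v) h
      rwa [Y.ρρ, Y.ρρ] at this
    · intro y hy
      simp only [Finset.mem_filter, Finset.mem_univ, true_and] at hy
      refine ⟨Y.ρ v y, ?_, Y.ρρ v y⟩
      simp only [Finset.mem_filter, Finset.mem_univ, true_and]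
      rcases Int.units_eq_one_or (Y.χ v y) with h | h
      · exact absurd h hy
      · rw [Y.χ_self, h]; decide
  have h2 := Finset.card_filter_add_card_filter_not (s := (Finset.univ : Finset Y.X))
    (p := fun y => Y.χ v y = 1)
  rw [← h1, Finset.card_univ] at h2
  omega

theorem axi_count {S : SV → Prop} [DecidablePred S] (T : Type) [Fintype T]
    (e : T ≃ {p : SV × Y.X // S p.1 ∧ Y.χ p.1 p.2 = 1}) :
    2 * Fintype.card T = (Finset.univ.filter S).card * Fintype.card Y.X := by
  classical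
  rw [Fintype.card_congr e, Fintype.card_subtype]
  have h1 : (Finset.univ.filter fun p : SV × Y.X => S p.1 ∧ Y.χ p.1 p.2 = 1).card =
      ∑ u ∈ Finset.univ.filter S, (Finset.univ.filter fun y : Y.X => Y.χ u y = 1).card := by
    rw [Finset.card_eq_sum_card_fiberwise (f := Prod.fst) (t := Finset.univ.filter S)]
    · refine Finset.sum_congr rfl fun u hu => ?_
      refine Finset.card_bij (fun p _ => p.2) ?_ ?_ ?_
      · intro p hp
        simp only [Finset.mem_filter, Finset.mem_univ, true_and] at hp ⊢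
        rw [← hp.2]; exact hp.1.2
      · intro p hp q hq h
        simp only [Finset.mem_filter, Finset.mem_univ, true_and] at hp hq
        exact Prod.ext (hp.2.trans hq.2.symm) h
      · intro y hy
        simp only [Finset.mem_filter, Finset.mem_univ, true_and] at hy hu
        exact ⟨(u, y), by simp [hu, hy], rfl⟩
    · intro p hp
      simp only [Finset.coe_filter, Finset.mem_univ, true_and, Set.mem_ofPred_eq] at hp ⊢
      exact hp.1
  rw [h1, Finset.mul_sum, Finset.sum_congr rfl fun u _ => axi_half u, Finset.sum_const,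
    smul_eq_mul]

theorem axi_prod : (∏ p : AN Y, axk p.1.1) = 2 ^ (Fintype.card (CC Y)) := by
  classical
  have h1 : (∏ p : AN Y, axk p.1.1) =
      ∏ p ∈ (Finset.univ.filter fun p : AN Y => nz p.1.1 = 2), (2 : ℝ) := by
    rw [Finset.prod_filter]
    refine Finset.prod_congr rfl fun p _ => ?_
    unfold axk
    by_cases h : nz p.1.1 = 1
    · rw [if_pos h, if_neg (by rw [h]; decide)]
    · rw [if_neg h, if_pos (axi_c4 _ p.2.1 h)]
  rw [h1, Finset.prod_const]
  congr 1
  have e1 : {p : AN Y // nz p.1.1 = 2} ≃ {p : SV × Y.X // nz p.1 = 2 ∧ Y.χ p.1 p.2 = 1} :=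
    { toFun := fun p => ⟨p.1.1, p.2, p.1.2.2⟩
      invFun := fun p => ⟨⟨p.1, by rw [p.2.1]; decide, p.2.2⟩, p.2.1⟩
      left_inv := fun p => rfl
      right_inv := fun p => rfl }
  have h2 := axi_count (Y := Y) (S := fun u => nz u = 2) _ e1
  have h3 := axi_count (Y := Y) (S := fun u => nz u = 0 ∧ u ≠ v1 ∧ u ≠ v2) (CC Y) (Equiv.refl _)
  rw [axi_c5, Fintype.card_subtype] at h2
  rw [axi_c6] at h3
  omega

theorem axi (hdmo : DMOStmt) : AXIStmt := by
  intro Y l L η hl hη
  have hk : ∀ i : AN Y, 0 < axk i.1.1 := by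
    intro i; unfold axk; split_ifs <;> norm_num
  have h1 := axi_schur hdmo (axP Y) (axG Y) (fun p => axk p.1.1) hk (axi_PP L) η hη
  rw [axi_gd L hl]
  refine le_trans (le_of_eq ?_) h1
  rw [axi_prod, ← axi_Xi L, ← Matrix.det_smul, smul_add, smul_smul]

end Pool.LU.FK
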