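import Pool.Agent.H87.LUY.Stmts
import Mathlib.LinearAlgebra.Matrix.Charpoly.Coeff
import Mathlib.Analysis.Calculus.MeanValue
import Mathlib.Analysis.SpecialFunctions.Log.Deriv

/-! LUY, module LOG -/

set_option autoImplicit false

open scoped BigOperators Topology Matrix
open Filter

noncomputable section

namespace Pool.LU.FK

variable {I : Type} [Fintype I] [DecidableEq I]

theorem log_iso {T : Matrix I I ℝ} (hT : T.transpose * T = 1) (v : I → ℝ) :
    (T *ᵥ v) ⬝ᵥ (T *ᵥ v) = v ⬝ᵥ v := by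
  rw [Matrix.dotProduct_mulVec, Matrix.vecMul_mulVec, hT, Matrix.vecMul_one]

theorem log_iso_pow {T : Matrix I I ℝ} (hT : T.transpose * T = 1) (v : I → ℝ) (n : ℕ) :
    ((T ^ n) *ᵥ v) ⬝ᵥ ((T ^ n) *ᵥ v) = v ⬝ᵥ v := by
  induction n with
  | zero => simp
  | succ n ih =>
    rw [pow_succ', ← Matrix.mulVec_mulVec, log_iso hT, ih]

omit [DecidableEq I] in
theorem log_self_nonneg (v : I → ℝ) : 0 ≤ v ⬝ᵥ v :=
  Finset.sum_nonneg fun i _ => mul_self_nonneg (v i)

theorem log_lower {T : Matrix I I ℝ} (hT : T.transpose * T = 1) {t : ℝ} (h0 : 0 ≤ t)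
    (v : I → ℝ) : (1 - t) ^ 2 * (v ⬝ᵥ v) ≤
      (v - t • (T *ᵥ v)) ⬝ᵥ (v - t • (T *ᵥ v)) := by
  have h1 : 0 ≤ (v - T *ᵥ v) ⬝ᵥ (v - T *ᵥ v) := log_self_nonneg _
  have h2 := log_iso hT v
  simp only [sub_dotProduct, dotProduct_sub, smul_dotProduct, dotProduct_smul, smul_eq_mul] at h1 ⊢
  rw [dotProduct_comm (T *ᵥ v) v, h2] at *
  nlinarith

theorem log_det_ne {T : Matrix I I ℝ} (hT : T.transpose * T = 1) {t : ℝ} (h0 : 0 ≤ t)
    (h1 : t < 1) : (1 - t • T).det ≠ 0 := by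
  intro h
  obtain ⟨v, hv, h⟩ := Matrix.exists_mulVec_eq_zero_iff.2 h
  have h2 := log_lower hT h0 v
  rw [Matrix.sub_mulVec, Matrix.one_mulVec, Matrix.smul_mulVec] at h
  rw [h] at h2
  simp only [dotProduct_zero] at h2
  have h3 : v ⬝ᵥ v ≤ 0 := by
    have : 0 < (1 - t) ^ 2 := by nlinarith
    by_contra h4
    push Not at h4
    nlinarith
  have h4 : 0 ≤ v ⬝ᵥ v := log_self_nonneg v
  exact hv (dotProduct_self_eq_zero.1 (le_antisymm h3 h4))

theorem log_trace_le {T : Matrix I I ℝ} (hT : T.transpose * T = 1) {t : ℝ} (h0 : 0 ≤ t)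
    (h1 : t < 1) (n : ℕ) : |(T ^ n * (1 - t • T)⁻¹).trace| ≤ Fintype.card I / (1 - t) := by
  have hd : 0 < 1 - t := by linarith
  have hX : (1 - t • T) * (1 - t • T)⁻¹ = 1 :=
    Matrix.mul_nonsing_inv _ (isUnit_iff_ne_zero.2 (log_det_ne hT h0 h1))
  set X := (1 - t • T)⁻¹
  have key : ∀ i, |(T ^ n * X) i i| ≤ 1 / (1 - t) := by
    intro i
    set x : I → ℝ := X *ᵥ (Pi.single i 1) with hx
    have e1 : x - t • (T *ᵥ x) = Pi.single i 1 := by
      have : (1 - t • T) *ᵥ x = Pi.single i 1 := by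
        rw [hx, Matrix.mulVec_mulVec, hX, Matrix.one_mulVec]
      rwa [Matrix.sub_mulVec, Matrix.one_mulVec, Matrix.smul_mulVec] at this
    have e2 := log_lower hT h0 x
    rw [e1] at e2
    have e3 : (Pi.single i (1 : ℝ) : I → ℝ) ⬝ᵥ Pi.single i 1 = 1 := by simp
    rw [e3] at e2
    have e4 := log_iso_pow hT x n
    have e5 : (T ^ n * X) i i = ((T ^ n) *ᵥ x) i := by
      rw [hx, Matrix.mulVec_mulVec]
      simp
    have e6 : (((T ^ n) *ᵥ x) i) ^ 2 ≤ ((T ^ n) *ᵥ x) ⬝ᵥ ((T ^ n) *ᵥ x) := by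
      rw [dotProduct]
      calc (((T ^ n) *ᵥ x) i) ^ 2 = ((T ^ n) *ᵥ x) i * ((T ^ n) *ᵥ x) i := sq _
        _ ≤ _ := Finset.single_le_sum (f := fun j => ((T ^ n) *ᵥ x) j * ((T ^ n) *ᵥ x) j)
          (fun j _ => mul_self_nonneg _) (Finset.mem_univ i)
    rw [e4] at e6
    rw [e5]
    apply abs_le_of_sq_le_sq _ (by positivity)
    rw [div_pow, one_pow, le_div_iff₀ (by positivity)]
    nlinarith [sq_nonneg (1 - t)]
  rw [Matrix.trace]
  calc |∑ i, (T ^ n * X).diag i| ≤ ∑ i, |(T ^ n * X).diag i| := Finset.abs_sum_le_sum_abs _ _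
    _ ≤ ∑ i : I, 1 / (1 - t) := Finset.sum_le_sum fun i _ => key i
    _ = Fintype.card I / (1 - t) := by
      rw [Finset.sum_const, Finset.card_univ, nsmul_eq_mul]; ring

theorem log_trace_rec {T : Matrix I I ℝ} (hT : T.transpose * T = 1) {t : ℝ} (h0 : 0 ≤ t)
    (h1 : t < 1) (n : ℕ) : (T ^ n * (1 - t • T)⁻¹).trace =
      (T ^ n).trace + t * (T ^ (n + 1) * (1 - t • T)⁻¹).trace := by
  have hX : (1 - t • T) * (1 - t • T)⁻¹ = 1 :=
    Matrix.mul_nonsing_inv _ (isUnit_iff_ne_zero.2 (log_det_ne hT h0 h1))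
  set X := (1 - t • T)⁻¹
  have e : X = 1 + t • (T * X) := by
    rw [Matrix.sub_mul, Matrix.one_mul, Matrix.smul_mul] at hX
    rw [← hX]; abel
  conv_lhs => rw [e]
  rw [Matrix.mul_add, Matrix.mul_one, Matrix.trace_add, Matrix.mul_smul, Matrix.trace_smul,
    ← Matrix.mul_assoc, ← pow_succ, smul_eq_mul]

theorem log_trace_one {T : Matrix I I ℝ} (hT : T.transpose * T = 1) {t : ℝ} (h0 : 0 ≤ t)
    (h1 : t < 1) (M : ℕ) (hM : ∀ n, 1 ≤ n → n < M → (T ^ n).trace = 0) : ∀ n, 1 ≤ n → n ≤ M →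
    (T * (1 - t • T)⁻¹).trace = t ^ (n - 1) * (T ^ n * (1 - t • T)⁻¹).trace := by
  intro n
  induction n with
  | zero => intro h; omega
  | succ n ih =>
    intro _ h2
    rcases Nat.eq_zero_or_pos n with rfl | hn
    · simp
    · rw [ih hn (by omega), log_trace_rec hT h0 h1, hM n hn (by omega), zero_add]
      obtain ⟨m, rfl⟩ : ∃ m, n = m + 1 := ⟨n - 1, by omega⟩
      simp only [Nat.add_sub_cancel]
      ring

theorem log_hasDeriv {T : Matrix I I ℝ} (hT : T.transpose * T = 1) {t : ℝ} (h0 : 0 ≤ t)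
    (h1 : t < 1) : HasDerivAt (fun s : ℝ => (1 - s • T).det)
      (-((1 - t • T).det * (T * (1 - t • T)⁻¹).trace)) t := by
  have hX : (1 - t • T) * (1 - t • T)⁻¹ = 1 :=
    Matrix.mul_nonsing_inv _ (isUnit_iff_ne_zero.2 (log_det_ne hT h0 h1))
  set X := (1 - t • T)⁻¹
  have e : (fun s : ℝ => (1 - s • T).det) = fun s => (1 - t • T).det *
      (1 + (X * (-T)).trace * (s - t) +
        (Matrix.det (1 + (Polynomial.X : Polynomial ℝ) • (X * (-T)).map Polynomial.C)).divX.divX.eval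
          (s - t) * (s - t) ^ 2) := by
    funext s
    rw [← Matrix.det_one_add_smul, ← Matrix.det_mul, Matrix.mul_add, Matrix.mul_one,
      Matrix.mul_smul, ← Matrix.mul_assoc, hX, Matrix.one_mul]
    congr 1
    rw [smul_neg, sub_smul]
    abel
  rw [e]
  have h2 : HasDerivAt (fun s : ℝ => s - t) 1 t := (hasDerivAt_id t).sub_const t
  set p := (Matrix.det (1 + (Polynomial.X : Polynomial ℝ) • (X * (-T)).map Polynomial.C)).divX.divX
  have h3 : HasDerivAt (fun s : ℝ => p.eval (s - t) * (s - t) ^ 2)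
      ((p.derivative.eval (t - t) * 1) * (t - t) ^ 2 +
        p.eval (t - t) * (2 * (t - t) ^ 1 * 1)) t := by
    apply HasDerivAt.mul
    · exact HasDerivAt.comp (h₂ := fun y => p.eval y) (h := fun s : ℝ => s - t) t
        (p.hasDerivAt (t - t)) h2
    · have h6 := HasDerivAt.fun_pow h2 2
      simpa using h6
  have h4 := ((hasDerivAt_const t (1 : ℝ)).add (h2.const_mul (X * (-T)).trace)).add h3
  have h5 := h4.const_mul (1 - t • T).det
  convert! h5 using 1
  rw [Matrix.mul_neg, Matrix.trace_neg, Matrix.trace_mul_comm X T]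
  simp

theorem log_thm : LOGStmt := by
  intro I _ _ T r M hT hr0 hr1 hM hM'
  have hpos : ∀ t ∈ Set.Icc 0 r, 0 < (1 - t • T).det := by
    intro t ht
    by_contra hc
    push Not at hc
    have hcont : ContinuousOn (fun s : ℝ => (1 - s • T).det) (Set.Icc 0 t) := by
      intro s hs
      exact (log_hasDeriv hT hs.1 (by linarith [hs.2, ht.2])).continuousAt.continuousWithinAt
    have h2 := intermediate_value_Icc' ht.1 hcont
    have h3 : (0 : ℝ) ∈ Set.Icc ((1 - t • T).det) ((1 - (0 : ℝ) • T).det) := ⟨hc, by simp⟩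
    obtain ⟨s, hs, h4⟩ := h2 h3
    exact log_det_ne hT hs.1 (by linarith [hs.2, ht.2]) h4
  have hderiv : ∀ t ∈ Set.Icc 0 r, HasDerivWithinAt (fun s : ℝ => Real.log (1 - s • T).det)
      (-(T * (1 - t • T)⁻¹).trace) (Set.Icc 0 r) t := by
    intro t ht
    have h1 := (log_hasDeriv hT ht.1 (by linarith [ht.2])).log (hpos t ht).ne'
    convert! h1.hasDerivWithinAt using 1
    field_simp [(hpos t ht).ne']
  have hbound : ∀ t ∈ Set.Icc 0 r, ‖-(T * (1 - t • T)⁻¹).trace‖ ≤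
      r ^ (M - 1) * (Fintype.card I / (1 - r)) := by
    intro t ht
    have ht1 : t < 1 := by linarith [ht.2]
    rw [norm_neg, Real.norm_eq_abs, log_trace_one hT ht.1 ht1 M hM' M hM le_rfl, abs_mul]
    have h1 := log_trace_le hT ht.1 ht1 M
    have h2 : (Fintype.card I : ℝ) / (1 - t) ≤ Fintype.card I / (1 - r) := by
      apply div_le_div_of_nonneg_left (by positivity) (by linarith) (by linarith [ht.2])
    have h3 : |t ^ (M - 1)| ≤ r ^ (M - 1) := by
      rw [abs_of_nonneg (pow_nonneg ht.1 _)]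
      exact pow_le_pow_left₀ ht.1 ht.2 _
    exact mul_le_mul h3 (h1.trans h2) (abs_nonneg _) (pow_nonneg hr0 _)
  have hmv := Convex.norm_image_sub_le_of_norm_hasDerivWithin_le hderiv hbound (convex_Icc 0 r)
    (Set.left_mem_Icc.2 hr0) (Set.right_mem_Icc.2 hr0)
  have hs : r ^ (M - 1) * (Fintype.card I / (1 - r)) * ‖r - 0‖ =
      (Fintype.card I : ℝ) * r ^ M / (1 - r) := by
    rw [sub_zero, Real.norm_eq_abs, abs_of_nonneg hr0]
    obtain ⟨m, rfl⟩ : ∃ m, M = m + 1 := ⟨M - 1, by omega⟩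
    simp only [Nat.add_sub_cancel, pow_succ]
    ring
  rw [hs] at hmv
  simp only [zero_smul, sub_zero, Matrix.det_one, Real.log_one, Real.norm_eq_abs] at hmv
  have hp := hpos r (Set.right_mem_Icc.2 hr0)
  rw [abs_le] at hmv
  constructor
  · rw [← Real.le_log_iff_exp_le hp]; linarith [hmv.1]
  · rw [← Real.log_le_iff_le_exp hp]; linarith [hmv.2]

end Pool.LU.FK
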