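import Pool.Agent.H87.LUY.Stmts
import Mathlib.LinearAlgebra.Matrix.PosDef
import Mathlib.LinearAlgebra.Matrix.Kronecker
import Mathlib.LinearAlgebra.Matrix.SchurComplement

/-! LUY, module SXD -/

set_option autoImplicit false

open scoped BigOperators Topology Matrix Kronecker
open Filter

noncomputable section

namespace Pool.LU.FK

section
variable {Q F K : Type} [Fintype Q] [DecidableEq Q] [Fintype F] [DecidableEq F]
  [Fintype K] [DecidableEq K]

/-- the matrix `B Bᵀ` -/
def sxdA (K : Type) [DecidableEq K] : Matrix K K ℝ := Matrix.of fun k k' => if k = k' then 3 else -1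

/-- its inverse -/
def sxdAi (K : Type) [DecidableEq K] : Matrix K K ℝ :=
  Matrix.of fun k k' => (1 / 4) * ((if k = k' then 1 else 0) + 1)

theorem sxd_inv (h : Fintype.card K = 3) : sxdAi K * sxdA K = 1 := by
  ext k k'
  simp only [Matrix.mul_apply, sxdAi, sxdA, Matrix.of_apply]
  have e : ∀ j : K, (1 / 4) * ((if k = j then (1 : ℝ) else 0) + 1) * (if j = k' then 3 else -1) =
      (if k = j then (if j = k' then 1 else 0) else 0) - (1 / 4) * (if k = j then 1 else 0) +
      (if j = k' then 1 else 0) - (1 / 4) := by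
    intro j
    split_ifs <;> norm_num
  rw [Finset.sum_congr rfl fun j _ => e j]
  simp only [Finset.sum_add_distrib, Finset.sum_sub_distrib, ← Finset.mul_sum]
  simp only [Finset.sum_ite_eq, Finset.sum_ite_eq', Finset.mem_univ, if_true, Finset.sum_const,
    Finset.card_univ, h, Matrix.one_apply]
  split_ifs <;> norm_num

theorem sxd_det (h : Fintype.card K = 3) : (sxdA K).det = 16 := by
  have e := Fintype.equivFinOfCardEq h
  have h1 : (sxdA K).det = ((sxdA (Fin 3)).submatrix e e).det := by
    congr 1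
    ext i j
    simp [sxdA]
  rw [h1, Matrix.det_submatrix_equiv_self, Matrix.det_fin_three]
  simp only [sxdA, Matrix.of_apply]
  norm_num [Fin.ext_iff]

/-- the involution of the darts -/
def sxdJ (ρ : F → Q → Q) : Matrix (Q × F) (Q × F) ℝ :=
  Matrix.of fun p q => if p.2 = q.2 ∧ q.1 = ρ q.2 p.1 then 1 else 0

omit [Fintype Q] [Fintype F] in
theorem sxd_J_tr {ρ : F → Q → Q} (hρ : ∀ f q, ρ f (ρ f q) = q) :
    (sxdJ ρ).transpose = sxdJ ρ := by
  ext p q
  simp only [Matrix.transpose_apply, sxdJ, Matrix.of_apply]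
  refine if_congr ?_ rfl rfl
  constructor
  · rintro ⟨h1, h2⟩
    refine ⟨h1.symm, ?_⟩
    rw [h1, h2, hρ]
  · rintro ⟨h1, h2⟩
    refine ⟨h1.symm, ?_⟩
    rw [h1, h2, hρ]

/-- multiplication by the involution from the right -/
theorem sxd_mul_J {ι : Type} {ρ : F → Q → Q} (hρ : ∀ f q, ρ f (ρ f q) = q)
    (M : Matrix ι (Q × F) ℝ) (i : ι) (q : Q × F) :
    (M * sxdJ ρ) i q = M i (ρ q.2 q.1, q.2) := by
  simp only [Matrix.mul_apply, sxdJ, Matrix.of_apply]
  rw [Finset.sum_eq_single (ρ q.2 q.1, q.2)]
  · simp [hρ]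
  · intro p _ hp
    rw [if_neg, mul_zero]
    rintro ⟨h1, h2⟩
    apply hp
    ext
    · simp [h2, hρ]
    · exact h1
  · intro h
    exact absurd (Finset.mem_univ _) h

theorem sxd_J_sq {ρ : F → Q → Q} (hρ : ∀ f q, ρ f (ρ f q) = q) :
    sxdJ ρ * sxdJ ρ = 1 := by
  ext p q
  rw [sxd_mul_J hρ]
  simp only [sxdJ, Matrix.of_apply, Matrix.one_apply]
  refine if_congr ?_ rfl rfl
  constructor
  · rintro ⟨h1, h2⟩
    have h3 := congrArg (ρ q.2) h2
    rw [hρ, hρ] at h3
    exact Prod.ext h3.symm h1
  · rintro rfl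
    exact ⟨rfl, rfl⟩

theorem sxd_J_det {ρ : F → Q → Q} (hρ : ∀ f q, ρ f (ρ f q) = q) (hf : ∀ f q, ρ f q ≠ q)
    (hF : Fintype.card F = 6) {s : ℝ} (h0 : 0 < s) (h1 : s < 1) :
    (1 + s • sxdJ ρ).det = (1 - s ^ 2) ^ (3 * Fintype.card Q) := by
  -- the sign function
  let e := Fintype.equivFin Q
  let ε : Q × F → ℝ := fun p => if e p.1 < e (ρ p.2 p.1) then 1 else -1
  have hε : ∀ p : Q × F, ε (ρ p.2 p.1, p.2) = - ε p := by
    intro p
    have h : e p.1 ≠ e (ρ p.2 p.1) := fun h => hf p.2 p.1 (e.injective h).symm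
    simp only [ε, hρ]
    rcases lt_or_gt_of_ne h with h2 | h2
    · rw [if_neg (not_lt.2 h2.le), if_pos h2]
    · rw [if_pos h2, if_neg (not_lt.2 h2.le)]; simp
  have hε2 : ∀ p, ε p * ε p = 1 := by
    intro p; simp only [ε]; split_ifs <;> norm_num
  have hD : Matrix.diagonal ε * Matrix.diagonal ε = 1 := by
    rw [Matrix.diagonal_mul_diagonal]
    simp only [hε2]
    exact Matrix.diagonal_one
  have hDJ : Matrix.diagonal ε * sxdJ ρ * Matrix.diagonal ε = - sxdJ ρ := by
    ext p q
    rw [Matrix.mul_diagonal, Matrix.diagonal_mul, Matrix.neg_apply]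
    simp only [sxdJ, Matrix.of_apply]
    split_ifs with h
    · obtain ⟨h1, h2⟩ := h
      have : q = (ρ p.2 p.1, p.2) := Prod.ext (by rw [h2, h1]) h1.symm
      rw [this, hε]
      have := hε2 p
      linarith
    · simp
  have hdet : (1 + s • sxdJ ρ).det = (1 - s • sxdJ ρ).det := by
    have h2 : (Matrix.diagonal ε).det * (Matrix.diagonal ε).det = 1 := by
      rw [← Matrix.det_mul, hD, Matrix.det_one]
    have h3 : Matrix.diagonal ε * (1 + s • sxdJ ρ) * Matrix.diagonal ε = 1 - s • sxdJ ρ := by
      rw [Matrix.mul_add, Matrix.add_mul, Matrix.mul_one, hD, Matrix.mul_smul, Matrix.smul_mul, hDJ,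
        smul_neg, sub_eq_add_neg]
    rw [← h3, Matrix.det_mul, Matrix.det_mul]
    linear_combination (-(1 + s • sxdJ ρ).det) * h2
  have hsq : (1 + s • sxdJ ρ).det ^ 2 = ((1 - s ^ 2) ^ (3 * Fintype.card Q)) ^ 2 := by
    have h5 : (1 + s • sxdJ ρ).det ^ 2 = ((1 + s • sxdJ ρ) * (1 - s • sxdJ ρ)).det := by
      rw [Matrix.det_mul, ← hdet, sq]
    rw [h5]
    have : (1 + s • sxdJ ρ) * (1 - s • sxdJ ρ) = (1 - s ^ 2) • (1 : Matrix (Q × F) (Q × F) ℝ) := by
      rw [Matrix.add_mul, Matrix.mul_sub, Matrix.mul_sub, Matrix.one_mul, Matrix.mul_one,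
        Matrix.one_mul, Matrix.smul_mul, Matrix.mul_smul, sxd_J_sq hρ, smul_smul, sub_smul, one_smul,
        sq]
      abel
    rw [this, Matrix.det_smul, Matrix.det_one, mul_one, Fintype.card_prod, hF, ← pow_mul]
    congr 1
    ring
  have hpos : 0 ≤ (1 + s • sxdJ ρ).det := by
    have h2 : (1 + s • sxdJ ρ) = (1 - s) • (1 : Matrix (Q × F) (Q × F) ℝ) +
        (s / 2) • ((1 + sxdJ ρ) * (1 + sxdJ ρ).transpose) := by
      rw [Matrix.transpose_add, Matrix.transpose_one, sxd_J_tr hρ, Matrix.add_mul, Matrix.mul_add,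
        Matrix.mul_add, Matrix.one_mul, Matrix.mul_one, Matrix.one_mul, sxd_J_sq hρ]
      have : (1 : Matrix (Q × F) (Q × F) ℝ) + sxdJ ρ + (sxdJ ρ + 1) = (2 : ℝ) • (1 + sxdJ ρ) := by
        rw [two_smul]; abel
      rw [this, smul_smul, sub_smul, one_smul, smul_add]
      rw [show s / 2 * 2 = s by ring]
      abel
    rw [h2]
    apply Matrix.PosSemidef.det_nonneg
    apply Matrix.PosSemidef.add
    · exact Matrix.PosSemidef.one.smul (by linarith)
    · have h3 := Matrix.posSemidef_self_mul_conjTranspose (1 + sxdJ ρ)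
      rw [Matrix.conjTranspose_eq_transpose_of_trivial] at h3
      exact h3.smul (by linarith)
  have h4 : 0 ≤ (1 - s ^ 2) ^ (3 * Fintype.card Q) := pow_nonneg (by nlinarith) _
  exact (pow_left_inj₀ hpos h4 two_ne_zero).1 hsq

theorem sxd_alg {P N : Type} [Fintype P] [DecidableEq P] [Fintype N] [DecidableEq N]
    (b : Matrix N P ℝ) (Li L : Matrix N N ℝ) (J : Matrix P P ℝ) (hJJ : J * J = 1)
    (hbb : b * b.transpose = L) (hLi : Li * L = 1) {s : ℝ} (h0 : 0 < s) (h1 : s < 1) :
    (1 - s • (((2 : ℝ) • (b.transpose * Li * b) - 1) * J)).det =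
      (2 * s / (1 - s ^ 2)) ^ (Fintype.card N) * (Li.det *
        (b * (1 - J) * b.transpose + ((1 - s) ^ 2 / (2 * s)) • L).det) * (1 + s • J).det := by
  have hs2 : 0 < 1 - s ^ 2 := by nlinarith
  have e1 : 1 - s • (((2 : ℝ) • (b.transpose * Li * b) - 1) * J) =
      (1 - b.transpose * ((2 * s / (1 - s ^ 2)) • (Li * b * (J - s • 1)))) * (1 + s • J) := by
    have e2 : (J - s • 1) * (1 + s • J) = (1 - s ^ 2) • J := by
      rw [Matrix.sub_mul, Matrix.mul_add, Matrix.mul_one, Matrix.mul_smul, hJJ,
        Matrix.smul_mul, Matrix.one_mul, smul_add, smul_smul, sub_smul, one_smul, sq]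
      abel
    have e3 : b.transpose * ((2 * s / (1 - s ^ 2)) • (Li * b * (J - s • 1))) * (1 + s • J) =
        (2 * s) • (b.transpose * Li * b * J) := by
      rw [Matrix.mul_smul, Matrix.smul_mul,
        show b.transpose * (Li * b * (J - s • 1)) * (1 + s • J) =
          b.transpose * Li * b * ((J - s • 1) * (1 + s • J)) by simp only [Matrix.mul_assoc],
        e2, Matrix.mul_smul, smul_smul, show 2 * s / (1 - s ^ 2) * (1 - s ^ 2) = 2 * s by
          field_simp]
    have e4 : ∀ A : Matrix P P ℝ, (1 - A) * (1 + s • J) = 1 + s • J - A * (1 + s • J) := by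
      intro A; rw [Matrix.sub_mul, Matrix.one_mul]
    rw [e4, e3]
    rw [Matrix.sub_mul, Matrix.smul_mul, Matrix.one_mul, smul_sub, smul_smul, mul_comm s 2]
    abel
  have hη1 : 1 + (1 - s) ^ 2 / (2 * s) = (1 + s ^ 2) / (2 * s) := by field_simp; ring
  have hmid : b * (1 - J) * b.transpose + ((1 - s) ^ 2 / (2 * s)) • L =
      (1 + (1 - s) ^ 2 / (2 * s)) • L - b * J * b.transpose := by
    rw [Matrix.mul_sub, Matrix.sub_mul, Matrix.mul_one, hbb, add_smul, one_smul]; abel
  have e3 : (1 - ((2 * s / (1 - s ^ 2)) • (Li * b * (J - s • 1))) * b.transpose) =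
      (2 * s / (1 - s ^ 2)) • (Li * (b * (1 - J) * b.transpose +
        ((1 - s) ^ 2 / (2 * s)) • L)) := by
    have e5 : Li * b * (J - s • 1) * b.transpose = Li * (b * J * b.transpose) - s • 1 := by
      rw [Matrix.mul_sub, Matrix.sub_mul, Matrix.mul_smul, Matrix.mul_one, Matrix.smul_mul,
        Matrix.mul_assoc Li b b.transpose, hbb, hLi]
      simp only [Matrix.mul_assoc]
    rw [hmid, Matrix.smul_mul, e5, Matrix.mul_sub, Matrix.mul_smul, hLi, smul_sub, smul_sub,
      smul_smul, smul_smul, hη1,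
      show 2 * s / (1 - s ^ 2) * ((1 + s ^ 2) / (2 * s)) = 1 + 2 * s / (1 - s ^ 2) * s by
        field_simp; ring, add_smul, one_smul]
    abel
  rw [e1, Matrix.det_mul, Matrix.det_one_sub_mul_comm, e3, Matrix.det_smul, Matrix.det_mul]

end

theorem sxd (hdmo : DMOStmt) : SXDStmt := by
  intro Q F K _ _ _ _ _ _ ρ B s hρ hf hF hK hB h0 h1
  let b : Matrix (Q × K) (Q × F) ℝ := (1 : Matrix Q Q ℝ) ⊗ₖ B
  let L : Matrix (Q × K) (Q × K) ℝ := (1 : Matrix Q Q ℝ) ⊗ₖ sxdA K
  let Li : Matrix (Q × K) (Q × K) ℝ := (1 : Matrix Q Q ℝ) ⊗ₖ sxdAi K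
  let J := sxdJ ρ
  have hBB : B * B.transpose = sxdA K := by
    ext k k'
    simp only [Matrix.mul_apply, Matrix.transpose_apply, sxdA, Matrix.of_apply]
    exact hB k k'
  have hbb : b * b.transpose = L := by
    simp only [b, L]
    rw [← Matrix.kroneckerMap_transpose, ← Matrix.mul_kronecker_mul, Matrix.transpose_one,
      Matrix.one_mul, hBB]
  have hLi : Li * L = 1 := by
    simp only [Li, L]
    rw [← Matrix.mul_kronecker_mul, Matrix.one_mul, sxd_inv hK, Matrix.one_kronecker_one]
  have hLt : Li.transpose = Li := by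
    simp only [Li]
    rw [← Matrix.kroneckerMap_transpose, Matrix.transpose_one]
    congr 1
    ext k k'
    simp only [sxdAi, Matrix.transpose_apply, Matrix.of_apply, eq_comm]
  have hJt : J.transpose = J := sxd_J_tr hρ
  have hJJ : J * J = 1 := sxd_J_sq hρ
  let R : Matrix (Q × F) (Q × F) ℝ := (2 : ℝ) • (b.transpose * Li * b) - 1
  have hRt : R.transpose = R := by
    simp only [R]
    rw [Matrix.transpose_sub, Matrix.transpose_smul, Matrix.transpose_mul, Matrix.transpose_mul,
      Matrix.transpose_transpose, hLt, Matrix.transpose_one, Matrix.mul_assoc]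
  have hP : (b.transpose * Li * b) * (b.transpose * Li * b) = b.transpose * Li * b := by
    calc (b.transpose * Li * b) * (b.transpose * Li * b)
        = b.transpose * Li * (b * b.transpose) * Li * b := by simp only [Matrix.mul_assoc]
      _ = b.transpose * (Li * L) * Li * b := by rw [hbb]; simp only [Matrix.mul_assoc]
      _ = b.transpose * Li * b := by rw [hLi, Matrix.mul_one]
  have hRR : R * R = 1 := by
    simp only [R]
    rw [Matrix.sub_mul, Matrix.mul_sub, Matrix.mul_sub, Matrix.one_mul, Matrix.mul_one,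
      Matrix.one_mul, Matrix.smul_mul, Matrix.mul_smul, hP, smul_smul]
    have : ((2 : ℝ) * 2) • (b.transpose * Li * b) = (2 : ℝ) • (b.transpose * Li * b) +
      (2 : ℝ) • (b.transpose * Li * b) := by rw [← add_smul]; norm_num
    rw [this]; abel
  refine ⟨R * J, ?_, ?_, ?_⟩
  · rw [Matrix.transpose_mul, hRt, hJt, Matrix.mul_assoc, ← Matrix.mul_assoc R R J, hRR,
      Matrix.one_mul, hJJ]
  · intro p q
    rw [sxd_mul_J hρ]
    have e1 : b.transpose * Li * b = (1 : Matrix Q Q ℝ) ⊗ₖ (B.transpose * sxdAi K * B) := by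
      simp only [b, Li]
      rw [← Matrix.kroneckerMap_transpose, ← Matrix.mul_kronecker_mul, ← Matrix.mul_kronecker_mul,
        Matrix.transpose_one, Matrix.one_mul, Matrix.one_mul]
    have e2 : ∀ f f' : F, (B.transpose * sxdAi K * B) f f' =
        (1 / 4) * ((∑ k, B k f * B k f') + (∑ k, B k f) * (∑ k, B k f')) := by
      intro f f'
      simp only [Matrix.mul_apply, Matrix.transpose_apply, sxdAi, Matrix.of_apply]
      have e3 : ∀ k : K, (∑ j, B j f * (1 / 4 * ((if j = k then 1 else 0) + 1))) * B k f' =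
          (1 / 4) * (B k f * B k f' + (∑ j, B j f) * B k f') := by
        intro k
        have : ∀ j : K, B j f * (1 / 4 * ((if j = k then 1 else 0) + 1)) =
            (1 / 4) * ((if j = k then B j f else 0) + B j f) := by
          intro j; split_ifs <;> ring
        rw [Finset.sum_congr rfl fun j _ => this j, ← Finset.mul_sum, Finset.sum_add_distrib,
          Finset.sum_ite_eq' Finset.univ k]
        simp only [Finset.mem_univ, if_true]
        ring
      rw [Finset.sum_congr rfl fun k _ => e3 k, ← Finset.mul_sum, Finset.sum_add_distrib,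
        ← Finset.mul_sum]
    simp only [R]
    rw [Matrix.sub_apply, Matrix.smul_apply, e1, Matrix.kroneckerMap_apply, e2, smul_eq_mul,
      Matrix.one_apply, Matrix.one_apply]
    by_cases h : q.1 = ρ q.2 p.1
    · have h2 : p.1 = ρ q.2 q.1 := by rw [h, hρ]
      rw [if_pos h2, if_pos h, one_mul, mul_one]
      congr 1
      refine if_congr ?_ rfl rfl
      constructor
      · intro h3; have h4 := congrArg Prod.snd h3; simpa using h4
      · intro h3; exact Prod.ext h2 h3
    · have h2 : p.1 ≠ ρ q.2 q.1 := by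
        intro h3; apply h; rw [h3, hρ]
      rw [if_neg h2, if_neg h, mul_zero, zero_mul, mul_zero, if_neg, sub_zero]
      intro h3
      exact h2 (congrArg Prod.fst h3)
  · -- the determinant
    have hs2 : 0 < 1 - s ^ 2 := by nlinarith
    set η : ℝ := (1 - s) ^ 2 / (2 * s) with hη
    have hη0 : 0 ≤ η := by positivity
    have hη1 : 1 + η = (1 + s ^ 2) / (2 * s) := by rw [hη]; field_simp; ring
    -- the matrix in the middle
    have hmid : b * (1 - J) * b.transpose + η • L = (1 + η) • L - b * J * b.transpose := by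
      rw [Matrix.mul_sub, Matrix.sub_mul, Matrix.mul_one, hbb, add_smul, one_smul]; abel
    have hJ1 : (1 - J) = (1 / 2 : ℝ) • ((1 - J) * (1 - J).transpose) := by
      rw [Matrix.transpose_sub, Matrix.transpose_one, hJt, Matrix.sub_mul, Matrix.mul_sub,
        Matrix.mul_sub, Matrix.one_mul, Matrix.mul_one, Matrix.one_mul, hJJ]
      have : (1 : Matrix (Q × F) (Q × F) ℝ) - J - (J - 1) = (2 : ℝ) • (1 - J) := by
        rw [two_smul]; abel
      rw [this, smul_smul]; norm_num
    have hpsd1 : (b * (1 - J) * b.transpose).PosSemidef := by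
      rw [hJ1]
      rw [Matrix.mul_smul, Matrix.smul_mul]
      apply Matrix.PosSemidef.smul _ (by norm_num : (0 : ℝ) ≤ 1 / 2)
      have h3 := Matrix.posSemidef_self_mul_conjTranspose (b * (1 - J))
      rw [Matrix.conjTranspose_eq_transpose_of_trivial, Matrix.transpose_mul] at h3
      simpa only [Matrix.mul_assoc] using h3
    have hpsdL : L.PosSemidef := by
      rw [← hbb]
      have h3 := Matrix.posSemidef_self_mul_conjTranspose b
      rwa [Matrix.conjTranspose_eq_transpose_of_trivial] at h3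
    have hL4 : ((4 : ℝ) • (1 : Matrix (Q × K) (Q × K) ℝ) - L).PosSemidef := by
      let c : Matrix (Q × K) Q ℝ := Matrix.of fun p q => if p.1 = q then 1 else 0
      have h3 : (4 : ℝ) • (1 : Matrix (Q × K) (Q × K) ℝ) - L = c * c.transpose := by
        ext p q
        rw [Matrix.sub_apply, Matrix.smul_apply, Matrix.mul_apply]
        simp only [L, c, Matrix.transpose_apply, Matrix.kroneckerMap_apply, sxdA, Matrix.of_apply,
          Matrix.one_apply, smul_eq_mul]
        rw [Finset.sum_eq_single p.1 (fun x _ hx => by rw [if_neg (Ne.symm hx), zero_mul])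
          (fun h => absurd (Finset.mem_univ _) h)]
        rw [if_pos rfl, one_mul]
        by_cases h5 : p.1 = q.1
        · by_cases h6 : p.2 = q.2
          · rw [if_pos (Prod.ext h5 h6), if_pos h5, if_pos h6, if_pos h5.symm]; norm_num
          · rw [if_neg (fun h => h6 (congrArg Prod.snd h)), if_pos h5, if_neg h6, if_pos h5.symm]
            norm_num
        · rw [if_neg (fun h => h5 (congrArg Prod.fst h)), if_neg h5, if_neg (Ne.symm h5)]
          norm_num
      rw [h3]
      have h4 := Matrix.posSemidef_self_mul_conjTranspose c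
      rwa [Matrix.conjTranspose_eq_transpose_of_trivial] at h4
    have hpsdM : (b * (1 - J) * b.transpose + η • L).PosSemidef :=
      hpsd1.add (hpsdL.smul hη0)
    have hle : (b * (1 - J) * b.transpose + η • L).det ≤
        (b * (1 - J) * b.transpose + (2 * ((1 - s) ^ 2 / s)) •
          (1 : Matrix (Q × K) (Q × K) ℝ)).det := by
      apply hdmo _ _ _ hpsdM
      have : b * (1 - J) * b.transpose + (2 * ((1 - s) ^ 2 / s)) •
          (1 : Matrix (Q × K) (Q × K) ℝ) - (b * (1 - J) * b.transpose + η • L) =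
          η • ((4 : ℝ) • (1 : Matrix (Q × K) (Q × K) ℝ) - L) := by
        rw [smul_sub, smul_smul]
        have : η * 4 = 2 * ((1 - s) ^ 2 / s) := by rw [hη]; field_simp; ring
        rw [this]; abel
      rw [this]
      exact hL4.smul hη0
    -- determinant of L
    have hdetL : L.det = 16 ^ (Fintype.card Q) := by
      simp only [L]
      rw [Matrix.det_kronecker, Matrix.det_one, one_pow, one_mul, sxd_det hK]
    have hdetLi : Li.det * L.det = 1 := by rw [← Matrix.det_mul, hLi, Matrix.det_one]
    -- the identity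
    have hI : (1 - s • (R * J)).det = Li.det * ((2 * s) ^ (3 * Fintype.card Q) *
        (b * (1 - J) * b.transpose + η • L).det) := by
      have e1 := sxd_alg b Li L J hJJ hbb hLi h0 h1
      rw [sxd_J_det hρ hf hF h0 h1, Fintype.card_prod, hK, mul_comm (Fintype.card Q) 3, div_pow]
        at e1
      rw [← hη] at e1
      rw [e1]
      field_simp
    have hfin : (b * (1 - J) * b.transpose + (2 * ((1 - s) ^ 2 / s)) •
          (1 : Matrix (Q × K) (Q × K) ℝ)).det =
        (Matrix.of (fun p q : K × Q => ∑ f, B p.1 f * B q.1 f *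
          ((if q.2 = p.2 then 1 else 0) - (if q.2 = ρ f p.2 then 1 else 0))) +
          (2 * ((1 - s) ^ 2 / s)) • (1 : Matrix (K × Q) (K × Q) ℝ)).det := by
      rw [← Matrix.det_submatrix_equiv_self (Equiv.prodComm K Q)]
      congr 1
      ext p q
      obtain ⟨k, x⟩ := p
      obtain ⟨k', y⟩ := q
      have e5 : (b * (1 - J) * b.transpose : Matrix (Q × K) (Q × K) ℝ) (x, k) (y, k') = ∑ f, B k f * B k' f *
          ((if y = x then 1 else 0) - (if y = ρ f x then 1 else 0)) := by
        rw [Matrix.mul_sub, Matrix.mul_one, Matrix.mul_apply, Fintype.sum_prod_type,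
          Finset.sum_comm]
        refine Finset.sum_congr rfl fun f _ => ?_
        rw [Finset.sum_eq_single y]
        · rw [Matrix.sub_apply, sxd_mul_J hρ]
          simp only [b, Matrix.transpose_apply, Matrix.kroneckerMap_apply, Matrix.one_apply]
          have e6 : (x = y) = (y = x) := propext eq_comm
          have e7 : (x = ρ f y) = (y = ρ f x) := by
            apply propext
            constructor
            · intro h; rw [h, hρ]
            · intro h; rw [h, hρ]
          simp only [e6, e7, if_true]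
          split_ifs <;> ring
        · intro z _ hz
          simp only [b, Matrix.transpose_apply, Matrix.kroneckerMap_apply, Matrix.one_apply]
          rw [if_neg (Ne.symm hz), zero_mul, mul_zero]
        · intro h; exact absurd (Finset.mem_univ _) h
      simp only [Matrix.submatrix_apply, Matrix.add_apply, Equiv.prodComm_apply, Prod.swap_prod_mk,
        Matrix.smul_apply, Matrix.of_apply]
      rw [e5, Matrix.one_apply, Matrix.one_apply]
      congr 2
      refine if_congr ?_ rfl rfl
      simp only [Prod.mk.injEq]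
      exact and_comm
    rw [← hfin]
    refine le_trans ?_ hle
    have hD : 0 ≤ (b * (1 - J) * b.transpose + η • L).det := hpsdM.det_nonneg
    rw [hI]
    have h16 : Li.det = 1 / 16 ^ (Fintype.card Q) := by
      rw [hdetL] at hdetLi
      field_simp
      linarith
    rw [h16]
    set D := (b * (1 - J) * b.transpose + η • L).det
    have hc : 2 ^ Fintype.card Q * (1 / 16 ^ Fintype.card Q * (2 * s) ^ (3 * Fintype.card Q)) ≤
        (1 : ℝ) := by
      rw [pow_mul, one_div, ← inv_pow, ← mul_pow, ← mul_pow]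
      apply pow_le_one₀
      · positivity
      · have : s ^ 3 ≤ 1 := pow_le_one₀ h0.le h1.le
        nlinarith
    calc 2 ^ Fintype.card Q * (1 / 16 ^ Fintype.card Q * ((2 * s) ^ (3 * Fintype.card Q) * D))
        = (2 ^ Fintype.card Q * (1 / 16 ^ Fintype.card Q * (2 * s) ^ (3 * Fintype.card Q))) * D := by
          ring
      _ ≤ 1 * D := mul_le_mul_of_nonneg_right hc hD
      _ = D := one_mul D

end Pool.LU.FK
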